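import Mathlib
import Pool.Agent.TH82.NC.Cor

/-! `n`-central polynomials (`n ≥ 5` prime, `K` any infinite field): the part whose words have at
most `n` letters outside a set `J` of variables takes only scalar values when the variables in `J`
are diagonal matrices, and only scalar values altogether when `J` has at most one element.  Hence
every `n`-central polynomial contains, for each variable `x`, a word with more than `n` letters
different from `x`. -/

set_option autoImplicit false

namespace Pool.Agent.TH82.Backup.OutsideDegree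

open Pool.Agent.H552R3.PC

universe u

/-- Every value of `f` on `n × n` matrices over `K` is a scalar matrix. -/
def ScalarValued {K : Type*} [Field K] {σ : Type*} (n : ℕ) (f : FreeAlgebra K σ) : Prop :=
  ∀ X : σ → Matrix (Fin n) (Fin n) K, ∃ c : K, FreeAlgebra.lift K X f = Matrix.scalar (Fin n) c

/-- `f` is central for `M_n(K)`: all values are scalar and `f` is not identically zero. -/
def IsCentral {K : Type*} [Field K] {σ : Type*} (n : ℕ) (f : FreeAlgebra K σ) : Prop :=
  ScalarValued n f ∧ ∃ X : σ → Matrix (Fin n) (Fin n) K, FreeAlgebra.lift K X f ≠ 0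

/-- `f` is `ν`-central for `M_n(K)`: `ν` is the least positive integer with `f ^ ν` central. -/
def IsNuCentral {K : Type*} [Field K] {σ : Type*} (n ν : ℕ) (f : FreeAlgebra K σ) : Prop :=
  0 < ν ∧ IsCentral n (f ^ ν) ∧ ∀ μ : ℕ, 0 < μ → IsCentral n (f ^ μ) → ν ≤ μ

open Classical in
/-- The number of letters of the word `l` that do not belong to `J` (counted with multiplicity). -/
noncomputable def outside {σ : Type*} (J : Set σ) (l : List σ) : ℕ := l.countP fun i => i ∉ J

/-- The linear combinations of the words `l` for which the number of letters outside `J` satisfies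
`Q`. -/
def wordSpan (K : Type*) [Field K] {σ : Type*} (J : Set σ) (Q : ℕ → Prop) :
    Submodule K (FreeAlgebra K σ) :=
  Submodule.span K {w | ∃ l : List σ, Q (outside J l) ∧ w = (l.map (FreeAlgebra.ι K)).prod}

/-- Let `n ≥ 5` be prime, `K` an infinite field (of any characteristic) and `f` an `n`-central
polynomial for `M_n(K)`.
* Let `J` be a set of variables and `f = g + h`, where all words of `g` have at most `n` letters
  outside `J` and all words of `h` have more than `n` letters outside `J`.  Then the value `g(X)` is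
  a scalar matrix if all matrices `X_i`, `i ∈ J`, are diagonal, and for all `X` if `J` has at most
  one element.  If the characteristic of `K` is not `n`, this scalar is zero.
* For every variable `x`, some word with more than `n` letters different from `x` occurs in `f`. -/
theorem result {K : Type u} [Field K] [Infinite K] {σ : Type*} (n : ℕ) (hn : n.Prime) (hn5 : 5 ≤ n)
    (f : FreeAlgebra K σ) (hcen : IsNuCentral n n f) :
    (∀ (J : Set σ) (g h : FreeAlgebra K σ), f = g + h → g ∈ wordSpan K J (fun k => k ≤ n) →
      h ∈ wordSpan K J (fun k => n < k) →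
      ∀ X : σ → Matrix (Fin n) (Fin n) K, (J.Subsingleton ∨ ∀ i ∈ J, (X i).IsDiag) →
        ∃ c : K, FreeAlgebra.lift K X g = Matrix.scalar (Fin n) c ∧ ((n : K) ≠ 0 → c = 0)) ∧
    ∀ x : σ, f ∉ wordSpan K {x} (fun k => k ≤ n) := by
  have hn0 : 0 < n := hn.pos
  obtain ⟨h1, ⟨h2, X0, hX0⟩, h3⟩ := hcen
  have hfX0 : FreeAlgebra.lift K X0 f ≠ 0 := by
    intro hz
    apply hX0
    rw [map_pow, hz, zero_pow hn.ne_zero]
  have hnsc : ¬ ScalarValued n f := by
    intro hcon
    have h4 : IsCentral n (f ^ 1) := by
      rw [pow_one]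
      exact ⟨hcon, X0, hfX0⟩
    have h5 := h3 1 one_pos h4
    omega
  have hns : ∃ X : σ → Matrix (Fin n) (Fin n) K, ∃ Z : Matrix (Fin n) (Fin n) K,
      FreeAlgebra.lift K X f * Z ≠ Z * FreeAlgebra.lift K X f := by
    by_contra hcon
    push Not at hcon
    exact hnsc fun X => scalar_of_comm _ (fun Y => hcon X Y)
  have part1 : ∀ (J : Set σ) (g h : FreeAlgebra K σ), f = g + h →
      g ∈ wordSpan K J (fun k => k ≤ n) → h ∈ wordSpan K J (fun k => n < k) →
      ∀ X : σ → Matrix (Fin n) (Fin n) K, (J.Subsingleton ∨ ∀ i ∈ J, (X i).IsDiag) →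
        ∃ c : K, FreeAlgebra.lift K X g = Matrix.scalar (Fin n) c ∧ ((n : K) ≠ 0 → c = 0) := by
    intro J g h hfgh hg hh X hX
    have hmain : ∀ {R : Type u} [CommRing R] [Algebra K R] (Y : σ → Matrix (Fin n) (Fin n) R),
        (∀ i ∈ J, (Y i).IsDiag) →
        ∃ c : R, FreeAlgebra.lift K Y g = Matrix.scalar (Fin n) c ∧ ((n : K) ≠ 0 → c = 0) :=
      fun Y hY => Pool.Agent.TH82.NC.main hn hn5 f h2 hns J g h hfgh hg hh Y hY
    rcases hX with hX | hX
    · rcases hX.eq_empty_or_singleton with hJ | ⟨x, hJ⟩
      · refine hmain X fun i hi => ?_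
        rw [hJ] at hi
        exact absurd hi (Set.notMem_empty i)
      · have hd : ∀ {R : Type u} [CommRing R] (W : σ → Matrix (Fin n) (Fin n) R),
            (W x).IsDiag → ∀ i ∈ J, (W i).IsDiag := by
          intro R _ W hW i hi
          rw [hJ, Set.mem_singleton_iff] at hi
          rw [hi]; exact hW
        by_cases hnK : (n : K) = 0
        · obtain ⟨c, hc⟩ := Pool.Agent.TH82.NC.scalar_of_diag1 x g (fun R _ _ W hW => by
            obtain ⟨c, hc, -⟩ := hmain W (hd W hW)
            exact ⟨c, hc⟩) X
          exact ⟨c, hc, fun h => absurd hnK h⟩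
        · refine ⟨0, ?_, fun _ => rfl⟩
          rw [map_zero]
          refine Pool.Agent.TH82.NC.zero_of_diag1 x g (fun R _ _ W hW => ?_) X
          obtain ⟨c, hc, hc0⟩ := hmain W (hd W hW)
          rw [hc, hc0 hnK, map_zero]
    · exact hmain X hX
  refine ⟨part1, fun x hx => hnsc fun X => ?_⟩
  obtain ⟨c, hc, -⟩ := part1 {x} f 0 (by rw [add_zero]) hx (Submodule.zero_mem _) X
    (Or.inl Set.subsingleton_singleton)
  exact ⟨c, hc⟩

end Pool.Agent.TH82.Backup.OutsideDegree
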